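import Pool.Agent.H195R3.Example

/-!
The generic function maps every interval onto all the spaces `ℝ^n`, by its values at consecutive
shifts.
-/

set_option autoImplicit false

namespace Pool.Agent.Y617.DS

open Pool.Agent.H195R3 Filter Cardinal FirstOrder Set

/-- In every interval there is a point `x` such that `f x, f (x + 1), ..., f (x + n)` have
prescribed values. -/
theorem gen_vals {f : ℝ → ℝ} (hf : Generic f) (n : ℕ) (y : ℕ → ℝ) (a b : ℚ) (hab : a < b) :
    ∃ x : ℝ, (a : ℝ) < x ∧ x < (b : ℝ) ∧ ∀ j ≤ n, f (x + j) = y j := by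
  classical
  let p1 : MvPolynomial ℕ ℚ := MvPolynomial.X 0 - MvPolynomial.C a
  let p2 : MvPolynomial ℕ ℚ := MvPolynomial.C b - MvPolynomial.X 0
  let r : ℕ → MvPolynomial ℕ ℚ := fun j =>
    MvPolynomial.X j - MvPolynomial.X 0 - MvPolynomial.C (j : ℚ)
  let w : ℕ → ℝ := fun k => y (k - (n + 1))
  let sol : ℝ → ℕ → ℝ := fun c k => if k < n + 1 then c + k else w k
  let c0 : ℝ := ((a : ℝ) + b) / 2
  have hab' : (a : ℝ) < b := by exact_mod_cast hab
  have hc0 : (a : ℝ) < c0 ∧ c0 < b := ⟨by simp only [c0]; linarith, by simp only [c0]; linarith⟩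
  have e1 : ∀ z : ℕ → ℝ, MvPolynomial.aeval z p1 = z 0 - a := by
    intro z; simp [p1]
  have e2 : ∀ z : ℕ → ℝ, MvPolynomial.aeval z p2 = b - z 0 := by
    intro z; simp [p2]
  have e3 : ∀ (z : ℕ → ℝ) (j : ℕ), MvPolynomial.aeval z (r j) = z j - z 0 - j := by
    intro z j; simp [r]
  have s0 : ∀ c, sol c 0 = c := by intro c; simp [sol]
  have sj : ∀ c j, j < n + 1 → sol c j = c + j := by
    intro c j hj; simp only [sol, if_pos hj]
  let T : Task :=
    { Q := insert p1 (insert p2 ((Finset.range (n + 1)).image r))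
      s := fun q => SignType.sign (MvPolynomial.aeval (sol c0) q)
      N := Finset.range (n + 1)
      w := w
      τ := fun k => n + 1 + k
      y := fun _ => 0 }
  have hlarge : Large T := by
    intro S hS
    let S' : Set ℝ := ⋃ j ∈ Finset.range (n + 1), (fun z => z - (j : ℝ)) '' S
    have hS' : #S' < continuum := by
      have h1 : ∀ m : ℕ, #(⋃ j ∈ Finset.range m, (fun z => z - (j : ℝ)) '' S : Set ℝ) <
          continuum := by
        intro m
        induction m with
        | zero => simpa using Cardinal.continuum_pos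
        | succ m ih =>
          have h2 : (⋃ j ∈ Finset.range (m + 1), (fun z => z - (j : ℝ)) '' S : Set ℝ) =
              (⋃ j ∈ Finset.range m, (fun z => z - (j : ℝ)) '' S) ∪
                (fun z => z - (m : ℝ)) '' S := by
            ext z
            simp only [Finset.mem_range, mem_iUnion, mem_union]
            constructor
            · rintro ⟨j, hj, hz⟩
              rcases Nat.lt_succ_iff_lt_or_eq.1 hj with h | h
              · exact Or.inl ⟨j, h, hz⟩
              · subst h; exact Or.inr hz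
            · rintro (⟨j, hj, hz⟩ | hz)
              · exact ⟨j, by omega, hz⟩
              · exact ⟨m, by omega, hz⟩
          rw [h2]
          refine (Cardinal.mk_union_le _ _).trans_lt (Cardinal.add_lt_of_lt aleph0_le_continuum
            ih ?_)
          exact Cardinal.mk_image_le.trans_lt hS
      exact h1 (n + 1)
    obtain ⟨c, hc, hcS⟩ : ∃ c, c ∈ Set.Ioo (a : ℝ) b ∧ c ∉ S' := by
      by_contra hcon
      push Not at hcon
      have h1 : #(Set.Ioo (a : ℝ) b) ≤ #S' := Cardinal.mk_le_mk_of_subset hcon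
      rw [Cardinal.mk_Ioo_real hab'] at h1
      exact absurd (h1.trans_lt hS') (lt_irrefl _)
    refine ⟨sol c, ?_, ?_, ?_, ?_⟩
    · intro k hk
      have hk' : ¬ k < n + 1 := fun h => hk (Finset.mem_range.2 h)
      simp only [sol, if_neg hk']
      rfl
    · intro k hk
      have hk' : k < n + 1 := Finset.mem_range.1 hk
      rw [sj c k hk']
      intro hmem
      apply hcS
      simp only [S', mem_iUnion]
      exact ⟨k, hk, c + k, hmem, by ring⟩
    · intro k hk l hl hkl
      have hk' : k < n + 1 := by simpa [T] using hk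
      have hl' : l < n + 1 := by simpa [T] using hl
      rw [sj c k hk', sj c l hl'] at hkl
      have : (k : ℝ) = l := by linarith
      exact_mod_cast this
    · intro q hq
      have hq' : q = p1 ∨ q = p2 ∨ ∃ j < n + 1, r j = q := by
        simpa [T] using hq
      change _ = SignType.sign (MvPolynomial.aeval (sol c0) q)
      rcases hq' with rfl | rfl | ⟨j, hj, rfl⟩
      · rw [e1, e1, s0, s0, sign_pos (by linarith [hc.1]), sign_pos (by linarith [hc0.1])]
      · rw [e2, e2, s0, s0, sign_pos (by linarith [hc.2]), sign_pos (by linarith [hc0.2])]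
      · rw [e3, e3, s0, s0, sj c j hj, sj c0 j hj]
        congr 1
        ring
  obtain ⟨x, ⟨h1, -, -, h4⟩, h5⟩ := hf T hlarge
  have g1 := h4 p1 (by simp [T])
  have g2 := h4 p2 (by simp [T])
  change _ = SignType.sign (MvPolynomial.aeval (sol c0) p1) at g1
  change _ = SignType.sign (MvPolynomial.aeval (sol c0) p2) at g2
  rw [e1, e1, s0, sign_pos (show (0 : ℝ) < c0 - a by linarith [hc0.1]), sign_eq_one_iff] at g1
  rw [e2, e2, s0, sign_pos (show (0 : ℝ) < b - c0 by linarith [hc0.2]), sign_eq_one_iff] at g2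
  refine ⟨x 0, by linarith, by linarith, fun j hj => ?_⟩
  have hj' : j < n + 1 := by omega
  have g3 := h4 (r j) (by
    simp only [T, Finset.mem_insert, Finset.mem_image, Finset.mem_range]
    exact Or.inr (Or.inr ⟨j, hj', rfl⟩))
  change _ = SignType.sign (MvPolynomial.aeval (sol c0) (r j)) at g3
  rw [e3, e3, s0, sj c0 j hj', show c0 + (j : ℝ) - c0 - j = 0 by ring, sign_zero,
    sign_eq_zero_iff] at g3
  have h7 : x 0 + j = x j := by linarith
  rw [h7, h5 j (by simpa [T] using hj')]
  have h2 := h1 (n + 1 + j) (by simp [T]; omega)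
  change x (n + 1 + j) = y j
  rw [h2]
  change y (n + 1 + j - (n + 1)) = y j
  congr 1
  omega

/-- The values of `x ↦ f (x + c)` form a definable relation. -/
theorem def_shift (f : ℝ → ℝ) {α : Type} [Finite α] (i k : α) (c : ℝ) :
    @Set.Definable ℝ (Set.univ : Set ℝ) Lf (str f) α {v | f (v i + c) = v k} := by
  let _ := str f
  have h1 := ((def_fn f (Sum.inr 0 : α ⊕ Fin 2) (Sum.inl k)).inter
    (def_add f (Sum.inl i : α ⊕ Fin 2) (Sum.inr 1) (Sum.inr 0))).inter
      (def_const f (Sum.inr 1 : α ⊕ Fin 2) c)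
  have h2 := h1.image_comp (fun i : α => (Sum.inl i : α ⊕ Fin 2))
  refine (congrArg (fun s => @Set.Definable ℝ (Set.univ : Set ℝ) Lf (str f) α s) ?_).mp h2
  ext v
  constructor
  · rintro ⟨w, ⟨⟨h1, h2⟩, h3⟩, rfl⟩
    simp only [Set.mem_ofPred_eq] at h1 h2 h3
    simp only [Set.mem_ofPred_eq, Function.comp]
    rw [← h1, ← h2, h3]
  · intro h
    refine ⟨Sum.elim v ![v i + c, c], ⟨⟨?_, ?_⟩, ?_⟩, ?_⟩
    · exact h
    · rfl
    · rfl
    · rfl

end Pool.Agent.Y617.DS
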